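import Mathlib
import Pool.Agent.Helper743.BAProof3

/-!
# Subsets of a computable Boolean algebra with two-element degree spectra

The relations are subsets (unary relations) of the algebra of the finite and cofinite sets of
natural numbers, and the two-element spectra `{a, a ∨ 0'}` that occur are cofinal: for every degree
`x` which is not above `0'` there is such a spectrum with `x ≤ a`.

`U G` consists of the atoms and of the complements of the finite elements whose size codes a pair
in the graph of `G`. An atom of `U G` and a cofinite element of `U G` can be told from each other by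
means of the image of `U G` only: an element is cofinite iff there is a smaller element in `U G`,
and it is an atom iff it is disjoint from a cofinite element of `U G`.
-/

set_option autoImplicit false

namespace Pool.Agent.Results.MP_5205a5_lc.UnaryCofinalTwoElement

open Pool.Agent.Helper743 Nat.Partrec

/-- The characteristic function of the image of the subset `R` in the copy `c`. -/
noncomputable def setImage {α : Type} [BooleanAlgebra α] (c : ComputableCopy α) (R : Set α)
    (n : ℕ) : ℕ :=
  open Classical in if ∃ a : c.dom, (a : ℕ) = n ∧ c.e a ∈ R then 1 else 0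

/-- The Turing degree of a function. -/
def deg (f : ℕ → ℕ) : TuringDegree :=
  toAntisymmetrization TuringReducible (fun n => Part.some (f n))

/-- The degree spectrum of a unary relation `R`: the set of the Turing degrees of the images of
`R` in all computable copies. -/
def setSpectrum {α : Type} [BooleanAlgebra α] (R : Set α) : Set TuringDegree :=
  {d | ∃ c : ComputableCopy α, d = deg (setImage c R)}

theorem setImage_eq {α : Type} [BooleanAlgebra α] (c : ComputableCopy α) (R : Set α) (n : ℕ) :
    setImage c R n = (open Classical in if n ∈ c.dom ∧ cv c n ∈ R then 1 else 0) := by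
  classical
  unfold setImage
  apply if_congr _ rfl rfl
  constructor
  · rintro ⟨a, rfl, hR⟩
    refine ⟨a.2, ?_⟩
    rw [cv_mk c a.2]
    exact hR
  · rintro ⟨h, hR⟩
    refine ⟨⟨n, h⟩, rfl, ?_⟩
    rw [cv_mk c h] at hR
    exact hR

/-- The unary relation. -/
def U (G : ℕ → ℕ) : Set FCA := {x | IsAtom x ∨ RG G ⊤ xᶜ}

theorem RG_top {G : ℕ → ℕ} {b : FCA} (h : RG G ⊤ b) : (b : Set ℕ).Finite ∧
    G (b : Set ℕ).ncard.unpair.1 = (b : Set ℕ).ncard.unpair.2 := by
  rcases h with h | h
  · exact absurd h.1 bot_ne_top_FCA.symm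
  · exact h.2

theorem finite_atom {x : FCA} (h : IsAtom x) : (x : Set ℕ).Finite := by
  obtain ⟨y, hy⟩ := (isAtom_FCA x).1 h
  rw [hy]
  exact Set.finite_singleton y

theorem bot_notMem {G : ℕ → ℕ} : (⊥ : FCA) ∉ U G := by
  rintro (h | h)
  · exact h.1 rfl
  · have h1 := (RG_top h).1
    refine FCA_not_both (⊥ : FCA) ?_ h1
    show (∅ : Set ℕ).Finite
    exact Set.finite_empty

/-- An element of `U G` with a smaller element of `U G` is not an atom. -/
theorem not_atom {G : ℕ → ℕ} {x y : FCA} (hy : y ∈ U G) (h : y ≤ x) (hne : y ≠ x) :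
    ¬ IsAtom x := by
  intro ha
  rcases ha.le_iff.1 h with h1 | h1
  · exact bot_notMem (h1 ▸ hy)
  · exact hne h1

theorem atom_of {G : ℕ → ℕ} {x y z : FCA} (hx : x ∈ U G) (hy : y ∈ U G) (hz : z ∈ U G)
    (h : z ≤ y) (hne : z ≠ y) (hxy : x ⊓ y = ⊥) : IsAtom x := by
  rcases hx with hx | hx
  · exact hx
  · exfalso
    have hy1 : ((yᶜ : FCA) : Set ℕ).Finite := by
      rcases hy with hy | hy
      · exact absurd hy (not_atom hz h hne)
      · exact (RG_top hy).1
    have h1 := ((RG_top hx).1).union hy1
    have h2 : (x : Set ℕ) ∩ (y : Set ℕ) = ∅ := congrArg Subtype.val hxy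
    apply Set.infinite_univ (α := ℕ)
    refine h1.subset ?_
    intro n _
    by_cases hn : n ∈ (x : Set ℕ)
    · refine Or.inr ?_
      show n ∉ (y : Set ℕ)
      intro h3
      have : n ∈ (x : Set ℕ) ∩ (y : Set ℕ) := ⟨hn, h3⟩
      rw [h2] at this
      exact this
    · exact Or.inl hn

/-- The complement of a finite set. -/
def cofin (F : Finset ℕ) : FCA := ⟨((F : Set ℕ))ᶜ, Or.inr (by rw [compl_compl]; exact F.finite_toSet)⟩

theorem exists_atom_below {x : FCA} (h : ((xᶜ : FCA) : Set ℕ).Finite) :
    ∃ y : FCA, IsAtom y ∧ y ≤ x ∧ y ≠ x := by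
  have hinf : (x : Set ℕ).Infinite := fun h1 => FCA_not_both x h1 h
  obtain ⟨n, hn⟩ := hinf.nonempty
  refine ⟨⟨{n}, Or.inl (Set.finite_singleton n)⟩, (isAtom_FCA _).2 ⟨n, rfl⟩, ?_, ?_⟩
  · show ({n} : Set ℕ) ⊆ (x : Set ℕ)
    exact Set.singleton_subset_iff.2 hn
  · intro h1
    apply hinf
    rw [← h1]
    exact Set.finite_singleton n

theorem exists_cofinite_disjoint (G : ℕ → ℕ) {x : FCA} (h : IsAtom x) :
    ∃ y ∈ U G, x ⊓ y = ⊥ ∧ ((yᶜ : FCA) : Set ℕ).Finite := by
  classical
  obtain ⟨n, hn⟩ := (isAtom_FCA x).1 h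
  have hpos : 1 ≤ Nat.pair 1 (G 1) := Nat.left_le_pair 1 (G 1)
  obtain ⟨F, hF1, hF2⟩ := Infinite.exists_superset_card_eq ({n} : Finset ℕ) (Nat.pair 1 (G 1))
    (by simpa using hpos)
  have hcc : (((cofin F)ᶜ : FCA) : Set ℕ) = (F : Set ℕ) := by
    show (((F : Set ℕ))ᶜ)ᶜ = _
    rw [compl_compl]
  have hfin : (((cofin F)ᶜ : FCA) : Set ℕ).Finite := by
    rw [hcc]
    exact F.finite_toSet
  refine ⟨cofin F, Or.inr (Or.inr ⟨rfl, hfin, ?_⟩), ?_, hfin⟩
  · rw [hcc, Set.ncard_coe_finset, hF2, Nat.unpair_pair]
  · apply Subtype.ext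
    show (x : Set ℕ) ∩ ((F : Set ℕ))ᶜ = ∅
    rw [hn]
    ext m
    simp only [Set.mem_inter_iff, Set.mem_singleton_iff, Set.mem_compl_iff, Finset.mem_coe,
      Set.mem_empty_iff_false, iff_false, not_and, not_not]
    rintro rfl
    exact hF1 (Finset.mem_singleton_self m)

/-! ### Reductions -/

theorem image_le (G : ℕ → ℕ) (c : ComputableCopy FCA) :
    TR (setImage c (U G)) (relImage c (RG G)) := by
  classical
  obtain ⟨fc, hfc, hc⟩ := cv_compl c
  obtain ⟨bot, hb⟩ := cv_surj c ⊥
  obtain ⟨top, ht⟩ := cv_surj c ⊤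
  have hdin := c.dom_computable.decide
  have h1 : Computable (fun y : ℕ => Nat.pair bot y) :=
    Primrec₂.natPair.to_comp.comp (Computable.const bot) Computable.id
  have h2 : Computable (fun y : ℕ => Nat.pair top (fc y)) :=
    Primrec₂.natPair.to_comp.comp (Computable.const top) hfc
  have hF : Computable (fun z : ℕ => bif (decide (z.unpair.1 ∈ c.dom) &&
      (decide (z.unpair.2.unpair.1 = 1) || decide (z.unpair.2.unpair.2 = 1))) then 1 else 0) := by
    have n1 := hdin.comp unpair1_c
    have n2 : Computable (fun z : ℕ => decide (z.unpair.2.unpair.1 = 1)) :=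
      decEq_c (unpair1_c.comp unpair2_c) (Computable.const 1)
    have n3 : Computable (fun z : ℕ => decide (z.unpair.2.unpair.2 = 1)) :=
      decEq_c (unpair2_c.comp unpair2_c) (Computable.const 1)
    exact Computable.cond (Primrec.and.to_comp.comp n1 (Primrec.or.to_comp.comp n2 n3))
      (Computable.const 1) (Computable.const 0)
  have h3 := (Computable.recT (O := {(relImage c (RG G) : ℕ →. ℕ)}) hF).comp
    (RecT.pair (Computable.recT (O := {(relImage c (RG G) : ℕ →. ℕ)}) Computable.id)
      (RecT.pair ((TR.refl (relImage c (RG G))).comp (Computable.recT h1))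
        ((TR.refl (relImage c (RG G))).comp (Computable.recT h2))))
  refine Nat.RecursiveIn.of_eq h3 ?_
  intro n
  congr 1
  simp only [Nat.unpair_pair, id]
  rw [setImage_eq, relImage_eq, relImage_eq]
  by_cases hn : n ∈ c.dom
  · have hcn := hc n hn
    have e1 : (bot ∈ c.dom ∧ n ∈ c.dom ∧ RG G (cv c bot) (cv c n)) ↔ IsAtom (cv c n) := by
      rw [hb.2]
      constructor
      · rintro ⟨_, _, h | h⟩
        · exact h.2
        · exact absurd h.1 bot_ne_top_FCA
      · exact fun h => ⟨hb.1, hn, Or.inl ⟨rfl, h⟩⟩
    have e2 : (top ∈ c.dom ∧ fc n ∈ c.dom ∧ RG G (cv c top) (cv c (fc n))) ↔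
        RG G ⊤ (cv c n)ᶜ := by
      rw [ht.2, hcn.2]
      exact ⟨fun h => h.2.2, fun h => ⟨ht.1, hcn.1, h⟩⟩
    by_cases ha : IsAtom (cv c n)
    · rw [if_pos (e1.2 ha), if_pos (show n ∈ c.dom ∧ cv c n ∈ U G from ⟨hn, Or.inl ha⟩)]
      simp [hn]
    · by_cases hr : RG G ⊤ (cv c n)ᶜ
      · rw [if_pos (e2.2 hr), if_pos (show n ∈ c.dom ∧ cv c n ∈ U G from ⟨hn, Or.inr hr⟩)]
        simp [hn]
      · rw [if_neg (fun h => hr (e2.1 h)), if_neg (fun h => ha (e1.1 h)), if_neg]
        · simp
        · rintro ⟨_, h | h⟩
          · exact ha h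
          · exact hr h
  · rw [if_neg (show ¬ (n ∈ c.dom ∧ cv c n ∈ U G) from fun h => hn h.1)]
    simp [hn]

/-- The certificates for the atoms. -/
def pD (fi : ℕ → ℕ → ℕ) (bot : ℕ) (β : List ℕ) (x w : ℕ) : Option ℕ :=
  bif decide ((β[x]?).getD 2 = 0) then some 0 else
    bif (decide ((β[x]?).getD 2 = 1) && (decide ((β[w.unpair.1]?).getD 2 = 1) &&
      (!decide (w.unpair.1 = x) && decide (fi x w.unpair.1 = w.unpair.1)))) then some 0 else
    bif (decide ((β[x]?).getD 2 = 1) && (decide ((β[w.unpair.1]?).getD 2 = 1) &&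
      (decide ((β[w.unpair.2]?).getD 2 = 1) && (!decide (w.unpair.2 = w.unpair.1) &&
      (decide (fi w.unpair.1 w.unpair.2 = w.unpair.2) && decide (fi x w.unpair.1 = bot))))))
      then some 1 else none

theorem pD_c {fi : ℕ → ℕ → ℕ} (bot : ℕ) (hfi : Computable₂ fi) :
    Computable (fun q : (List ℕ × ℕ) × ℕ => pD fi bot q.1.1 q.1.2 q.2) := by
  have b : Computable (fun q : (List ℕ × ℕ) × ℕ => q.1.1) := Computable.fst.comp Computable.fst
  have x : Computable (fun q : (List ℕ × ℕ) × ℕ => q.1.2) := Computable.snd.comp Computable.fst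
  have y : Computable (fun q : (List ℕ × ℕ) × ℕ => q.2.unpair.1) := unpair1_c.comp Computable.snd
  have z : Computable (fun q : (List ℕ × ℕ) × ℕ => q.2.unpair.2) := unpair2_c.comp Computable.snd
  have g : ∀ {f : (List ℕ × ℕ) × ℕ → ℕ}, Computable f →
      Computable (fun q : (List ℕ × ℕ) × ℕ => ((q.1.1)[f q]?).getD 2) := by
    intro f hf
    exact Computable.option_getD (Primrec.list_getElem?.to_comp.comp b hf) (Computable.const 2)
  have gx := g x
  have gy := g y
  have gz := g z
  have na := Primrec.and.to_comp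
  have nt := Primrec.not.to_comp
  have x0 := decEq_c gx (Computable.const 0)
  have x1 := decEq_c gx (Computable.const 1)
  have y1 := decEq_c gy (Computable.const 1)
  have z1 := decEq_c gz (Computable.const 1)
  have yx := decEq_c y x
  have zy := decEq_c z y
  have fxy := decEq_c (hfi.comp x y) y
  have fyz := decEq_c (hfi.comp y z) z
  have fxb := decEq_c (hfi.comp x y) (Computable.const bot)
  exact Computable.cond x0 (Computable.const (some 0))
    (Computable.cond (na.comp x1 (na.comp y1 (na.comp (nt.comp yx) fxy)))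
      (Computable.const (some 0))
      (Computable.cond (na.comp x1 (na.comp y1 (na.comp z1 (na.comp (nt.comp zy)
        (na.comp fyz fxb))))) (Computable.const (some 1)) (Computable.const none)))

theorem At_le (G : ℕ → ℕ) (c : ComputableCopy FCA) : TR (At c) (setImage c (U G)) := by
  classical
  obtain ⟨fi, hfi, hi⟩ := cv_inf c
  obtain ⟨bot, hb⟩ := cv_surj c ⊥
  have hval : ∀ n x, ((pre (setImage c (U G)) n)[x]?).getD 2 = 1 ↔
      x < n ∧ x ∈ c.dom ∧ cv c x ∈ U G := by
    intro n x
    rw [pre_getElem?]
    by_cases hx : x < n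
    · rw [if_pos hx]
      simp only [Option.getD_some]
      rw [setImage_eq]
      by_cases h : x ∈ c.dom ∧ cv c x ∈ U G
      · simp [h, hx]
      · simp [h, hx]
    · rw [if_neg hx]
      simp [hx]
  have hval0 : ∀ n x, ((pre (setImage c (U G)) n)[x]?).getD 2 = 0 ↔
      x < n ∧ ¬ (x ∈ c.dom ∧ cv c x ∈ U G) := by
    intro n x
    rw [pre_getElem?]
    by_cases hx : x < n
    · rw [if_pos hx]
      simp only [Option.getD_some]
      rw [setImage_eq]
      by_cases h : x ∈ c.dom ∧ cv c x ∈ U G
      · simp [h]
      · simp [h, hx]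
    · rw [if_neg hx]
      simp [hx]
  have hAt0 : ∀ x, ¬ (x ∈ c.dom ∧ IsAtom (cv c x)) → At c x = 0 := fun x h => by
    unfold At
    rw [if_neg h]
  have hAt1 : ∀ x, (x ∈ c.dom ∧ IsAtom (cv c x)) → At c x = 1 := fun x h => by
    unfold At
    rw [if_pos h]
  refine cert (TR.refl _) (pD fi bot) (pD_c bot hfi) _ ?_ ?_
  · intro x
    by_cases hx : x ∈ c.dom ∧ cv c x ∈ U G
    · have hnz : ∀ n, ¬ (((pre (setImage c (U G)) n)[x]?).getD 2 = 0) := fun n h =>
        ((hval0 n x).1 h).2 hx
      by_cases ha : IsAtom (cv c x)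
      · obtain ⟨y, hy, hxy, hyf⟩ := exists_cofinite_disjoint G ha
        obtain ⟨z, hz, hzy, hne⟩ := exists_atom_below hyf
        obtain ⟨a, ha1, ha2⟩ := cv_surj c y
        obtain ⟨b, hb1, hb2⟩ := cv_surj c z
        let n := max x (max a b) + 1
        have hxn : x < n := Nat.lt_succ_of_le (le_max_left _ _)
        have han : a < n := Nat.lt_succ_of_le ((le_max_left _ _).trans (le_max_right _ _))
        have hbn : b < n := Nat.lt_succ_of_le ((le_max_right _ _).trans (le_max_right _ _))
        refine ⟨n, Nat.pair a b, ?_⟩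
        unfold pD
        rw [decide_eq_false (hnz n), cond_false]
        simp only [Nat.unpair_pair]
        by_cases hc1 : (decide (((pre (setImage c (U G)) n)[x]?).getD 2 = 1) &&
            (decide (((pre (setImage c (U G)) n)[a]?).getD 2 = 1) &&
            (!decide (a = x) && decide (fi x a = a)))) = true
        · rw [hc1]
          rfl
        · rw [Bool.not_eq_true] at hc1
          rw [hc1, cond_false]
          have t1 : fi a b = b := by
            apply cv_inj c (hi a b ha1 hb1).1 hb1
            rw [(hi a b ha1 hb1).2, ha2, hb2]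
            exact inf_eq_right.2 hzy
          have t2 : fi x a = bot := by
            apply cv_inj c (hi x a hx.1 ha1).1 hb.1
            rw [(hi x a hx.1 ha1).2, ha2, hb.2]
            exact hxy
          have t3 : ¬ b = a := by
            rintro rfl
            exact hne (hb2.symm.trans ha2)
          have t4 := (hval n x).2 ⟨hxn, hx.1, hx.2⟩
          have t5 := (hval n a).2 ⟨han, ha1, by rw [ha2]; exact hy⟩
          have t6 := (hval n b).2 ⟨hbn, hb1, by rw [hb2]; exact Or.inl hz⟩
          rw [t4, t5, t6, t1, t2, decide_eq_false t3]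
          simp
      · have hf : (((cv c x)ᶜ : FCA) : Set ℕ).Finite := by
          rcases hx.2 with h | h
          · exact absurd h ha
          · exact (RG_top h).1
        obtain ⟨y, hy, hyx, hne⟩ := exists_atom_below hf
        obtain ⟨a, ha1, ha2⟩ := cv_surj c y
        let n := max x a + 1
        have hxn : x < n := Nat.lt_succ_of_le (le_max_left _ _)
        have han : a < n := Nat.lt_succ_of_le (le_max_right _ _)
        refine ⟨n, Nat.pair a 0, ?_⟩
        unfold pD
        rw [decide_eq_false (hnz n), cond_false]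
        simp only [Nat.unpair_pair]
        have t1 : fi x a = a := by
          apply cv_inj c (hi x a hx.1 ha1).1 ha1
          rw [(hi x a hx.1 ha1).2, ha2]
          exact inf_eq_right.2 hyx
        have t3 : ¬ a = x := by
          rintro rfl
          exact hne ha2.symm
        have t4 := (hval n x).2 ⟨hxn, hx.1, hx.2⟩
        have t5 := (hval n a).2 ⟨han, ha1, by rw [ha2]; exact Or.inl hy⟩
        rw [t4, t5, t1, decide_eq_false t3]
        simp
    · refine ⟨x + 1, 0, ?_⟩
      unfold pD
      rw [decide_eq_true ((hval0 (x + 1) x).2 ⟨Nat.lt_succ_self x, hx⟩)]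
      rfl
  · intro x n w v hv
    unfold pD at hv
    by_cases h0 : ((pre (setImage c (U G)) n)[x]?).getD 2 = 0
    · rw [decide_eq_true h0, cond_true] at hv
      rw [← Option.some.inj hv, hAt0]
      rintro ⟨h1, h2⟩
      exact ((hval0 n x).1 h0).2 ⟨h1, Or.inl h2⟩
    · rw [decide_eq_false h0, cond_false] at hv
      by_cases h1 : (decide (((pre (setImage c (U G)) n)[x]?).getD 2 = 1) &&
          (decide (((pre (setImage c (U G)) n)[w.unpair.1]?).getD 2 = 1) &&
          (!decide (w.unpair.1 = x) && decide (fi x w.unpair.1 = w.unpair.1)))) = true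
      · rw [h1, cond_true] at hv
        simp only [Bool.and_eq_true, decide_eq_true_eq, Bool.not_eq_true',
          decide_eq_false_iff_not] at h1
        obtain ⟨a1, a2, a3, a4⟩ := h1
        have b1 := (hval n x).1 a1
        have b2 := (hval n w.unpair.1).1 a2
        rw [← Option.some.inj hv, hAt0]
        rintro ⟨_, h2⟩
        refine not_atom b2.2.2 ?_ ?_ h2
        · have h3 := (hi x w.unpair.1 b1.2.1 b2.2.1).2
          rw [a4] at h3
          rw [h3]
          exact inf_le_left
        · exact fun h3 => a3 (cv_inj c b2.2.1 b1.2.1 h3)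
      · rw [Bool.not_eq_true] at h1
        rw [h1, cond_false] at hv
        by_cases h2 : (decide (((pre (setImage c (U G)) n)[x]?).getD 2 = 1) &&
            (decide (((pre (setImage c (U G)) n)[w.unpair.1]?).getD 2 = 1) &&
            (decide (((pre (setImage c (U G)) n)[w.unpair.2]?).getD 2 = 1) &&
            (!decide (w.unpair.2 = w.unpair.1) &&
            (decide (fi w.unpair.1 w.unpair.2 = w.unpair.2) &&
              decide (fi x w.unpair.1 = bot)))))) = true
        · rw [h2, cond_true] at hv
          simp only [Bool.and_eq_true, decide_eq_true_eq, Bool.not_eq_true',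
            decide_eq_false_iff_not] at h2
          obtain ⟨a1, a2, a3, a4, a5, a6⟩ := h2
          have b1 := (hval n x).1 a1
          have b2 := (hval n w.unpair.1).1 a2
          have b3 := (hval n w.unpair.2).1 a3
          rw [← Option.some.inj hv, hAt1]
          refine ⟨b1.2.1, atom_of b1.2.2 b2.2.2 b3.2.2 ?_ ?_ ?_⟩
          · have h3 := (hi w.unpair.1 w.unpair.2 b2.2.1 b3.2.1).2
            rw [a5] at h3
            rw [h3]
            exact inf_le_left
          · exact fun h3 => a4 (cv_inj c b3.2.1 b2.2.1 h3)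
          · have h3 := (hi x w.unpair.1 b1.2.1 b2.2.1).2
            rw [a6, hb.2] at h3
            exact h3.symm
        · rw [Bool.not_eq_true] at h2
          rw [h2, cond_false] at hv
          simp at hv

theorem le_image (G : ℕ → ℕ) (c : ComputableCopy FCA) :
    TR (relImage c (RG G)) (setImage c (U G)) := by
  classical
  obtain ⟨fc, hfc, hc⟩ := cv_compl c
  obtain ⟨bot, hb⟩ := cv_surj c ⊥
  obtain ⟨top, ht⟩ := cv_surj c ⊤
  have hdin := c.dom_computable.decide
  have hF : Computable (fun z : ℕ => bif (decide (z.unpair.1.unpair.1 = bot) &&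
      decide (z.unpair.2.unpair.1 = 1)) then 1 else
      bif (decide (z.unpair.1.unpair.1 = top) && (decide (z.unpair.1.unpair.2 ∈ c.dom) &&
        (decide (z.unpair.2.unpair.2.unpair.1 = 1) &&
          !decide (z.unpair.2.unpair.2.unpair.2 = 1)))) then 1 else 0) := by
    have n1 : Computable (fun z : ℕ => decide (z.unpair.1.unpair.1 = bot)) :=
      decEq_c (unpair1_c.comp unpair1_c) (Computable.const bot)
    have n2 : Computable (fun z : ℕ => decide (z.unpair.2.unpair.1 = 1)) :=
      decEq_c (unpair1_c.comp unpair2_c) (Computable.const 1)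
    have n3 : Computable (fun z : ℕ => decide (z.unpair.1.unpair.1 = top)) :=
      decEq_c (unpair1_c.comp unpair1_c) (Computable.const top)
    have n4 := hdin.comp (unpair2_c.comp unpair1_c)
    have n5 : Computable (fun z : ℕ => decide (z.unpair.2.unpair.2.unpair.1 = 1)) :=
      decEq_c (unpair1_c.comp (unpair2_c.comp unpair2_c)) (Computable.const 1)
    have n6 : Computable (fun z : ℕ => decide (z.unpair.2.unpair.2.unpair.2 = 1)) :=
      decEq_c (unpair2_c.comp (unpair2_c.comp unpair2_c)) (Computable.const 1)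
    have na := Primrec.and.to_comp
    have nt := Primrec.not.to_comp
    exact Computable.cond (na.comp n1 n2) (Computable.const 1)
      (Computable.cond (na.comp n3 (na.comp n4 (na.comp n5 (nt.comp n6)))) (Computable.const 1)
        (Computable.const 0))
  have hA := At_le G c
  have h3 := (Computable.recT (O := {(setImage c (U G) : ℕ →. ℕ)}) hF).comp
    (RecT.pair (Computable.recT (O := {(setImage c (U G) : ℕ →. ℕ)}) Computable.id)
      (RecT.pair (RecT.comp hA (Computable.recT unpair2_c))
        (RecT.pair (RecT.comp (TR.refl (setImage c (U G))) (Computable.recT (hfc.comp unpair2_c)))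
          (RecT.comp hA (Computable.recT (hfc.comp unpair2_c))))))
  refine Nat.RecursiveIn.of_eq h3 ?_
  intro z
  congr 1
  simp only [Nat.unpair_pair, id]
  have hz : z = Nat.pair z.unpair.1 z.unpair.2 := (Nat.pair_unpair z).symm
  conv_rhs => rw [hz, relImage_eq]
  have hAt : ∀ x, At c x = 1 ↔ (x ∈ c.dom ∧ IsAtom (cv c x)) := by
    intro x
    unfold At
    by_cases h : x ∈ c.dom ∧ IsAtom (cv c x)
    · simp [h]
    · simp [h]
  have hSt : ∀ x, setImage c (U G) x = 1 ↔ (x ∈ c.dom ∧ cv c x ∈ U G) := by
    intro x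
    rw [setImage_eq]
    by_cases h : x ∈ c.dom ∧ cv c x ∈ U G
    · simp [h]
    · simp [h]
  by_cases h1 : z.unpair.1 = bot ∧ At c z.unpair.2 = 1
  · rw [decide_eq_true h1.1, decide_eq_true h1.2]
    have h2 := (hAt _).1 h1.2
    rw [if_pos ⟨by rw [h1.1]; exact hb.1, h2.1, by rw [h1.1, hb.2]; exact Or.inl ⟨rfl, h2.2⟩⟩]
    rfl
  · have e1 : (decide (z.unpair.1 = bot) && decide (At c z.unpair.2 = 1)) = false := by
      rw [← Bool.not_eq_true, Bool.and_eq_true, decide_eq_true_eq, decide_eq_true_eq]
      exact h1
    rw [e1, cond_false]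
    by_cases h2 : z.unpair.1 = top ∧ z.unpair.2 ∈ c.dom ∧ setImage c (U G) (fc z.unpair.2) = 1 ∧
        ¬ At c (fc z.unpair.2) = 1
    · obtain ⟨a1, a2, a3, a4⟩ := h2
      have h3 := (hSt _).1 a3
      have h4 : ¬ IsAtom (cv c (fc z.unpair.2)) := fun h => a4 ((hAt _).2 ⟨h3.1, h⟩)
      have h5 : RG G ⊤ (cv c z.unpair.2) := by
        rcases h3.2 with h | h
        · exact absurd h h4
        · rwa [(hc _ a2).2, compl_compl] at h
      rw [decide_eq_true a1, decide_eq_true a2, decide_eq_true a3, decide_eq_false a4,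
        if_pos ⟨by rw [a1]; exact ht.1, a2, by rw [a1, ht.2]; exact h5⟩]
      rfl
    · have e2 : (decide (z.unpair.1 = top) && (decide (z.unpair.2 ∈ c.dom) &&
          (decide (setImage c (U G) (fc z.unpair.2) = 1) &&
            !decide (At c (fc z.unpair.2) = 1)))) = false := by
        rw [← Bool.not_eq_true, Bool.and_eq_true, Bool.and_eq_true, Bool.and_eq_true,
          Bool.not_eq_true', decide_eq_true_eq, decide_eq_true_eq, decide_eq_true_eq,
          decide_eq_false_iff_not]
        exact h2
      rw [e2, cond_false, if_neg]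
      rintro ⟨a1, a2, a3 | a3⟩
      · apply h1
        refine ⟨cv_inj c a1 hb.1 (by rw [a3.1, hb.2]), (hAt _).2 ⟨a2, a3.2⟩⟩
      · have a4 : z.unpair.1 = top := cv_inj c a1 ht.1 (by rw [a3.1, ht.2])
        have a5 := hc _ a2
        apply h2
        refine ⟨a4, a2, (hSt _).2 ⟨a5.1, Or.inr ?_⟩, ?_⟩
        · rw [a5.2, compl_compl]
          exact Or.inr ⟨rfl, a3.2⟩
        · intro h3
          have h4 := finite_atom ((hAt _).1 h3).2
          rw [a5.2] at h4
          exact FCA_not_both _ a3.2.1 h4

/-! ### The dichotomy above a given degree -/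

/-- For a countable family of functions and a function `Kf` not computed by `f` there is `G` above
`f` not computing `Kf` such that every member of the family is computed by `G` or joins `G` above
`Kf`. -/
theorem dichotomy_above (Kf f : ℕ → ℕ) (hK : ¬ TR Kf f) (W : ℕ → ℕ → ℕ) :
    ∃ G : ℕ → ℕ, TR f G ∧ ¬ TR Kf G ∧ ∀ i, TR (W i) G ∨ TR Kf (join G (W i)) := by
  classical
  let A : ℕ → ℕ → ℕ := fun n => Nat.rec f
    (fun i B => if TR Kf (join B (W i)) then B else join B (W i)) n
  have hA0 : A 0 = f := rfl
  have hAs : ∀ n, A (n+1) = if TR Kf (join (A n) (W n)) then A n else join (A n) (W n) :=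
    fun n => rfl
  have hAm : ∀ n, TR (A n) (A (n+1)) := by
    intro n
    rw [hAs]
    split
    · exact TR.refl _
    · exact TR_join_left _ _
  have hAK : ∀ n, ¬ TR Kf (A n) := by
    intro n
    induction n with
    | zero => rw [hA0]; exact hK
    | succ n ih =>
      rw [hAs]
      split
      next h => exact ih
      next h => exact h
  refine ⟨GU A Kf, ?_, GU_avoids hAm hAK, fun i => ?_⟩
  · have h := TR_GU A Kf 0
    rwa [hA0] at h
  by_cases h : TR Kf (join (A i) (W i))
  · right
    refine TR.trans h (TR_join ((TR_GU A Kf i).trans (TR_join_left _ _)) (TR_join_right _ _))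
  · left
    have h1 : A (i+1) = join (A i) (W i) := by rw [hAs, if_neg h]
    have h2 : TR (W i) (A (i+1)) := by rw [h1]; exact TR_join_right _ _
    exact h2.trans (TR_GU A Kf (i+1))

theorem deg_le {f g : ℕ → ℕ} : deg f ≤ deg g ↔ TR f g := by
  rw [TR_iff]
  exact toAntisymmetrization_le_toAntisymmetrization_iff

theorem deg_eq {f g : ℕ → ℕ} (h1 : TR f g) (h2 : TR g f) : deg f = deg g :=
  le_antisymm (deg_le.2 h1) (deg_le.2 h2)

theorem red_iff {f : ℕ → ℕ} {h : ℕ →. ℕ} :
    TuringReducible (f : ℕ →. ℕ) h ↔ RecT {h} f := by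
  unfold RecT TuringReducible
  rw [RecursiveIn.iff_nat]
  rfl

theorem isLUB_join (f g : ℕ → ℕ) : IsLUB {deg f, deg g} (deg (join f g)) := by
  constructor
  · rintro x (rfl | rfl)
    · exact deg_le.2 (TR_join_left f g)
    · exact deg_le.2 (TR_join_right f g)
  · intro x hx
    have h1 : deg f ≤ x := hx (Or.inl rfl)
    have h2 : deg g ≤ x := hx (Or.inr rfl)
    induction x using Quotient.inductionOn with
    | h h =>
      have r1 : TuringReducible (f : ℕ →. ℕ) h := h1
      have r2 : TuringReducible (g : ℕ →. ℕ) h := h2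
      have r3 : TuringReducible (join f g : ℕ →. ℕ) h :=
        red_iff.2 (RecT.pair (red_iff.1 r1) (red_iff.1 r2))
      exact r3

theorem spectrum_eq (G : ℕ → ℕ) : setSpectrum (U G) = degreeSpectrum (RG G) := by
  have h : ∀ c : ComputableCopy FCA, deg (setImage c (U G)) = deg (relImage c (RG G)) := fun c =>
    deg_eq (image_le G c) (le_image G c)
  ext d
  constructor
  · rintro ⟨c, hc⟩
    exact ⟨c, hc.trans (h c)⟩
  · rintro ⟨c, hc⟩
    exact ⟨c, Eq.trans hc (h c).symm⟩

/-- The membership functions of the computably enumerable sets. -/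
noncomputable def WW (i : ℕ) : ℕ → ℕ :=
  chi (fun n => (Code.eval (Denumerable.ofNat Code i) n).Dom)

theorem spectrum (G : ℕ → ℕ) (hG2 : ∀ i, TR (WW i) G ∨ TR K (join G (WW i))) :
    degreeSpectrum (RG G) = {deg G, deg (join G K)} := by
  classical
  have hdeg : ∀ f g : ℕ → ℕ, TR f g → TR g f → deg f = deg g := fun f g h1 h2 => deg_eq h1 h2
  ext d
  constructor
  · rintro ⟨c, hd⟩
    obtain ⟨code, hcode⟩ := re_code (nonatom_re c)
    have hW : ∀ n, WW (Encodable.encode code) n = 1 - At c n := by
      intro n
      show chi _ n = _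
      unfold chi At
      rw [Denumerable.ofNat_encode]
      by_cases hat : n ∈ c.dom ∧ IsAtom (cv c n)
      · rw [if_pos hat, if_neg (fun h => ((hcode n).2 h) hat)]
      · rw [if_neg hat, if_pos ((hcode n).1 hat)]
    have hAt01 : ∀ n, At c n ≤ 1 := by
      intro n; unfold At; split <;> omega
    have hsub : Computable (fun n : ℕ => 1 - n) :=
      (Primrec.nat_sub.comp (Primrec.const 1) Primrec.id).to_comp
    have hW1 : TR (WW (Encodable.encode code)) (At c) := by
      have h := (Computable.recT (O := {(At c : ℕ →. ℕ)}) hsub).comp (TR.refl (At c))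
      have e : (fun n => 1 - At c n) = WW (Encodable.encode code) := by
        funext n; rw [hW]
      rw [e] at h
      exact h
    have hW2 : TR (At c) (WW (Encodable.encode code)) := by
      have h := (Computable.recT (O := {(WW (Encodable.encode code) : ℕ →. ℕ)}) hsub).comp
        (TR.refl (WW (Encodable.encode code)))
      have e : (fun n => 1 - WW (Encodable.encode code) n) = At c := by
        funext n
        have := hAt01 n
        rw [hW]; omega
      rw [e] at h
      exact h
    rcases hG2 (Encodable.encode code) with h | h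
    · left
      rw [hd]
      apply hdeg
      · exact (image_TR G c).trans (TR_join (TR.refl G) (hW2.trans h))
      · exact G_TR_image G c
    · right
      rw [Set.mem_singleton_iff, hd]
      apply hdeg
      · refine (image_TR G c).trans (TR_join (TR_join_left G K) ?_)
        refine hW2.trans (TR.trans ?_ (TR_join_right G K))
        exact chi_TR_K (Partrec.dom_re (Code.eval_part.comp (Computable.const _) Computable.id))
      · refine TR_join (G_TR_image G c) ?_
        refine h.trans ?_
        exact TR_join (G_TR_image G c) (hW1.trans (At_TR_image G c))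
  · rintro (hd | hd)
    · refine ⟨mkCopy good_le, ?_⟩
      rw [hd]
      apply hdeg
      · exact G_TR_image G _
      · exact (image_TR G _).trans (TR_join (TR.refl G) (TR_of_computable At1_computable))
    · rw [Set.mem_singleton_iff] at hd
      refine ⟨mkCopy good_le', ?_⟩
      rw [hd]
      apply hdeg
      · exact TR_join (G_TR_image G _) (K_TR_At2.trans (At_TR_image G _))
      · refine (image_TR G _).trans (TR_join (TR_join_left G K) ?_)
        obtain ⟨code, hcode⟩ := re_code (nonatom_re (mkCopy good_le'))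
        have h1 : TR (chi (fun n => ¬ (n ∈ (mkCopy good_le').dom ∧
            IsAtom (cv (mkCopy good_le') n)))) K := chi_TR_K (nonatom_re (mkCopy good_le'))
        refine TR.trans ?_ (h1.trans (TR_join_right G K))
        have hsub : Computable (fun n : ℕ => 1 - n) :=
          (Primrec.nat_sub.comp (Primrec.const 1) Primrec.id).to_comp
        have h := (Computable.recT (O := {(chi (fun n => ¬ (n ∈ (mkCopy good_le').dom ∧
            IsAtom (cv (mkCopy good_le') n))) : ℕ →. ℕ)}) hsub).comp (TR.refl _)
        have e : (fun n => 1 - chi (fun n => ¬ (n ∈ (mkCopy good_le').dom ∧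
            IsAtom (cv (mkCopy good_le') n))) n) = At (mkCopy good_le') := by
          funext n
          unfold chi At
          by_cases hat : n ∈ (mkCopy good_le').dom ∧ IsAtom (cv (mkCopy good_le') n)
          · rw [if_pos hat, if_neg (fun h => h hat)]
          · rw [if_neg hat, if_pos hat]
        rw [e] at h
        exact h

/-- The algebra `FCA` of the finite and cofinite sets of natural numbers has a computable copy, and
for every function `f` whose degree is not above `0'` there are a subset `R` of this algebra and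
Turing degrees `a`, `b` such that `a` is above the degree of `f` and not above `0'`, `b` is the
least upper bound of `a` and `0'` (so `a ≠ b`), and the degree spectrum of `R` is `{a, b}`. -/
theorem result : Nonempty (ComputableCopy FCA) ∧
    ∀ f : ℕ → ℕ, ¬ deg K ≤ deg f → ∃ (R : Set FCA) (a b : TuringDegree),
      deg f ≤ a ∧ ¬ deg K ≤ a ∧ IsLUB {a, deg K} b ∧ a ≠ b ∧ setSpectrum R = {a, b} := by
  refine ⟨⟨mkCopy good_le⟩, fun f hf => ?_⟩
  obtain ⟨G, h1, h2, h3⟩ := dichotomy_above K f (fun h => hf (deg_le.2 h)) WW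
  refine ⟨U G, deg G, deg (join G K), deg_le.2 h1, fun h => h2 (deg_le.1 h), isLUB_join G K,
    fun h => ?_, ?_⟩
  · apply h2
    apply deg_le.1
    rw [h]
    exact deg_le.2 (TR_join_right G K)
  · rw [spectrum_eq, spectrum G h3]

end Pool.Agent.Results.MP_5205a5_lc.UnaryCofinalTwoElement
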